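import Mathlib

/-!
Every finitely generated commutative ring, in particular every finitely generated integral
domain, has a d-Sigma-2 Scott sentence.
-/

namespace Pool.Agent.Results.MP_93e0ce_lc.DSigmaTwo

open FirstOrder FirstOrder.Language

universe u

/-- Formulas of the infinitary logic with free variables indexed by a type: finitary formulas,
countable disjunctions and conjunctions, binary conjunctions, and finite blocks of quantifiers. -/
inductive Inf (L : FirstOrder.Language.{0, 0}) : Type → Type 1
  | fin {α : Type} (φ : L.Formula α) : Inf L α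
  | disj {α : Type} (φ : ℕ → Inf L α) : Inf L α
  | conj {α : Type} (φ : ℕ → Inf L α) : Inf L α
  | and {α : Type} (φ ψ : Inf L α) : Inf L α
  | ex {α : Type} (k : ℕ) (φ : Inf L (α ⊕ Fin k)) : Inf L α
  | all {α : Type} (k : ℕ) (φ : Inf L (α ⊕ Fin k)) : Inf L α

variable {L : FirstOrder.Language.{0, 0}}

/-- Satisfaction of an infinitary formula under an assignment. -/
def Inf.Realize (M : Type u) [L.Structure M] : ∀ {α : Type}, Inf L α → (α → M) → Prop
  | _, .fin φ, v => φ.Realize v
  | _, .disj φ, v => ∃ i, (φ i).Realize M v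
  | _, .conj φ, v => ∀ i, (φ i).Realize M v
  | _, .and φ ψ, v => φ.Realize M v ∧ ψ.Realize M v
  | _, .ex k φ, v => ∃ w : Fin k → M, φ.Realize M (Sum.elim v w)
  | _, .all k φ, v => ∀ w : Fin k → M, φ.Realize M (Sum.elim v w)

/-- The complexity classes: `IsClass true m φ` says that `φ` is `Σ_m`, and `IsClass false m φ`
says that `φ` is `Π_m`. At level `0` these are the finitary quantifier-free formulas; a `Σ_m`
formula is a countable disjunction of formulas `∃ x̄ φ` with `φ` in `Π_b` for some `b < m`, and a
`Π_m` formula is a countable conjunction of formulas `∀ x̄ φ` with `φ` in `Σ_b` for some `b < m`. -/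
inductive IsClass : Bool → ℕ → ∀ {α : Type}, Inf L α → Prop
  | qf (b : Bool) {α : Type} (φ : L.Formula α) (h : BoundedFormula.IsQF φ) :
      IsClass b 0 (Inf.fin φ)
  | sigma {α : Type} (m : ℕ) (k c : ℕ → ℕ) (φ : ∀ i, Inf L (α ⊕ Fin (k i)))
      (hc : ∀ i, c i < m) (h : ∀ i, IsClass false (c i) (φ i)) :
      IsClass true m (Inf.disj fun i => Inf.ex (k i) (φ i))
  | pi {α : Type} (m : ℕ) (k c : ℕ → ℕ) (φ : ∀ i, Inf L (α ⊕ Fin (k i)))
      (hc : ∀ i, c i < m) (h : ∀ i, IsClass true (c i) (φ i)) :
      IsClass false m (Inf.conj fun i => Inf.all (k i) (φ i))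

/-- A d-`Σ_m` formula is the conjunction of a `Σ_m` formula and a `Π_m` formula. -/
def IsDSigma (m : ℕ) {α : Type} (φ : Inf L α) : Prop :=
  ∃ σ π : Inf L α, IsClass true m σ ∧ IsClass false m π ∧ φ = Inf.and σ π

/-- A Scott sentence of `M` is a sentence whose countable models are exactly the countable
structures isomorphic to `M`. -/
def IsScottSentence (M : Type u) [L.Structure M] (φ : Inf L Empty) : Prop :=
  ∀ (N : Type u) [L.Structure N] [Countable N],
    φ.Realize N (Empty.elim : Empty → N) ↔ Nonempty (M ≃[L] N)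

/-- The tuple `a` generates `M` under the term operations. -/
def Generates (L : FirstOrder.Language.{0, 0}) {M : Type u} [L.Structure M] {n : ℕ} (a : Fin n → M) : Prop :=
  ∀ y : M, ∃ t : L.Term (Fin n), t.realize a = y

/-- Some finite tuple generates `M` under the term operations of the language. -/
def FinGen (L : FirstOrder.Language.{0, 0}) (M : Type u) [L.Structure M] : Prop :=
  ∃ (n : ℕ) (a : Fin n → M), Generates L a

/-! ### The general criterion -/

/-- The tuple `b` satisfies every universal formula that `a` satisfies. -/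
def Uni (L : FirstOrder.Language.{0, 0}) {M N : Type u} [L.Structure M] [L.Structure N] {n : ℕ}
    (a : Fin n → M) (b : Fin n → N) : Prop :=
  ∀ (k : ℕ) (ψ : L.Formula (Fin n ⊕ Fin k)), BoundedFormula.IsQF ψ →
    (∀ w : Fin k → M, ψ.Realize (Sum.elim a w)) → ∀ w : Fin k → N, ψ.Realize (Sum.elim b w)

/-- Universal formulas satisfied by `a`. -/
abbrev UType (L : FirstOrder.Language.{0, 0}) {M : Type u} [L.Structure M] {n : ℕ} (a : Fin n → M) : Type :=
  {p : Σ k : ℕ, L.Formula (Fin n ⊕ Fin k) //
    BoundedFormula.IsQF p.2 ∧ ∀ w : Fin p.1 → M, p.2.Realize (Sum.elim a w)}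

section general

variable {M N : Type u} [L.Structure M] [L.Structure N] {n : ℕ}

lemma isQF_equal {α : Type} (t s : L.Term α) : BoundedFormula.IsQF (Term.equal t s) :=
  (BoundedFormula.IsAtomic.equal _ _).isQF

lemma Uni.eq_iff {a : Fin n → M} {b : Fin n → N} (h : Uni L a b) (t s : L.Term (Fin n)) :
    t.realize b = s.realize b ↔ t.realize a = s.realize a := by
  have w0 : Fin 0 → N := Fin.elim0
  constructor
  · intro hb
    by_contra ha
    have := h 0 (Term.equal (t.relabel Sum.inl) (s.relabel Sum.inl)).not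
      (isQF_equal _ _).not (fun w => by
        simp only [Formula.realize_not, Formula.realize_equal, Term.realize_relabel]
        exact ha) w0
    simp only [Formula.realize_not, Formula.realize_equal, Term.realize_relabel] at this
    exact this hb
  · intro ha
    have := h 0 (Term.equal (t.relabel Sum.inl) (s.relabel Sum.inl))
      (isQF_equal _ _) (fun w => by
        simp only [Formula.realize_equal, Term.realize_relabel]
        exact ha) w0
    simp only [Formula.realize_equal, Term.realize_relabel] at this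
    exact this

lemma Uni.rel_iff {a : Fin n → M} {b : Fin n → N} (h : Uni L a b) {l : ℕ} (R : L.Relations l)
    (t : Fin l → L.Term (Fin n)) :
    Structure.RelMap R (fun i => (t i).realize b) ↔
      Structure.RelMap R (fun i => (t i).realize a) := by
  have w0 : Fin 0 → N := Fin.elim0
  have hqf : BoundedFormula.IsQF (R.formula (fun i => ((t i).relabel Sum.inl :
      L.Term (Fin n ⊕ Fin 0)))) := (BoundedFormula.IsAtomic.rel _ _).isQF
  constructor
  · intro hb
    by_contra ha
    have := h 0 (R.formula (fun i => (t i).relabel Sum.inl)).not hqf.not (fun w => by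
        simp only [Formula.realize_not, Formula.realize_rel, Term.realize_relabel]
        exact ha) w0
    simp only [Formula.realize_not, Formula.realize_rel, Term.realize_relabel] at this
    exact this hb
  · intro ha
    have := h 0 (R.formula (fun i => (t i).relabel Sum.inl)) hqf (fun w => by
        simp only [Formula.realize_rel, Term.realize_relabel]
        exact ha) w0
    simp only [Formula.realize_rel, Term.realize_relabel] at this
    exact this

/-- Two structures generated by tuples with the same universal formulas are isomorphic. -/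
lemma Uni.nonempty_equiv {a : Fin n → M} {b : Fin n → N} (h : Uni L a b) (ha : Generates L a)
    (hb : Generates L b) : Nonempty (M ≃[L] N) := by
  choose t ht using ha
  have key : ∀ s : L.Term (Fin n), (t (s.realize a)).realize b = s.realize b := fun s =>
    (h.eq_iff _ _).2 (ht _)
  have hinj : Function.Injective (fun x : M => (t x).realize b) := by
    intro x y hxy
    have := (h.eq_iff (t x) (t y)).1 hxy
    rwa [ht, ht] at this
  have hsurj : Function.Surjective (fun x : M => (t x).realize b) := by
    intro y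
    obtain ⟨s, hs⟩ := hb y
    exact ⟨s.realize a, by rw [← hs]; exact key s⟩
  refine ⟨⟨Equiv.ofBijective _ ⟨hinj, hsurj⟩, ?_, ?_⟩⟩
  · intro l f x
    have h1 : Structure.funMap f x = (Term.func f (fun i => t (x i))).realize a := by
      simp only [Term.realize_func, ht]
    change (t (Structure.funMap f x)).realize b = _
    rw [h1, key]
    rfl
  · intro l R x
    have := h.rel_iff R (fun i => t (x i))
    simp only [ht] at this
    exact this

lemma UType.nonempty (a : Fin n → M) : Nonempty (UType L a) :=
  ⟨⟨⟨0, ⊤⟩, BoundedFormula.IsQF.top, fun w => by simp⟩⟩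

/-- The matrix of a universal formula of the type, with its variables moved. -/
def uForm (a : Fin n → M) (p : UType L a) : L.Formula ((Empty ⊕ Fin n) ⊕ Fin p.1.1) :=
  p.1.2.relabel (Sum.elim (fun j => Sum.inl (Sum.inr j)) Sum.inr)

lemma uForm_isQF (a : Fin n → M) (p : UType L a) : BoundedFormula.IsQF (uForm a p) :=
  p.2.1.relabel _

lemma realize_uForm (a : Fin n → M) (p : UType L a) (K : Type u) [L.Structure K]
    (b : Fin n → K) (w : Fin p.1.1 → K) :
    (uForm a p).Realize (Sum.elim (Sum.elim Empty.elim b) w) ↔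
      p.1.2.Realize (Sum.elim b w) := by
  rw [uForm, Formula.realize_relabel]
  have : (Sum.elim (Sum.elim Empty.elim b) w ∘ Sum.elim (fun j => Sum.inl (Sum.inr j)) Sum.inr) =
      (Sum.elim b w : Fin n ⊕ Fin p.1.1 → K) := by
    ext z
    rcases z with z | z <;> rfl
  rw [this]

/-- The number of quantified variables in a disjunct of the second part. -/
def kk (a : Fin n → M) : UType L a ⊕ L.Term (Fin n) → ℕ
  | Sum.inl p => p.1.1
  | Sum.inr _ => 0

/-- The disjuncts of the second part. -/
def gForm (a : Fin n → M) : ∀ z : UType L a ⊕ L.Term (Fin n),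
    L.Formula ((Empty ⊕ Fin (n + 1)) ⊕ Fin (kk a z))
  | Sum.inl p => Formula.not (p.1.2.relabel
      (Sum.elim (fun j => Sum.inl (Sum.inr (Fin.castSucc j))) Sum.inr))
  | Sum.inr t => Term.equal (Term.var (Sum.inl (Sum.inr (Fin.last n))))
      (t.relabel (fun j => Sum.inl (Sum.inr (Fin.castSucc j))))

lemma gForm_isQF (a : Fin n → M) (z : UType L a ⊕ L.Term (Fin n)) :
    BoundedFormula.IsQF (gForm a z) := by
  rcases z with p | t
  · exact (p.2.1.relabel _).not
  · exact isQF_equal _ _

lemma realize_gForm_inl (a : Fin n → M) (p : UType L a) (K : Type u) [L.Structure K]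
    (w : Fin (n + 1) → K) (u : Fin p.1.1 → K) :
    (gForm a (Sum.inl p)).Realize (Sum.elim (Sum.elim Empty.elim w) u) ↔
      ¬ p.1.2.Realize (Sum.elim (fun j : Fin n => w (Fin.castSucc j)) u) := by
  have h : ∀ v : ((Empty ⊕ Fin (n + 1)) ⊕ Fin p.1.1) → K,
      (gForm a (Sum.inl p)).Realize v ↔ ¬ (Formula.relabel
        (Sum.elim (fun j : Fin n => Sum.inl (Sum.inr (Fin.castSucc j))) Sum.inr :
          Fin n ⊕ Fin p.1.1 → ((Empty ⊕ Fin (n + 1)) ⊕ Fin p.1.1)) p.1.2).Realize v :=
    fun v => Formula.realize_not
  have h2 := Formula.realize_relabel (φ := p.1.2)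
    (g := (Sum.elim (fun j : Fin n => Sum.inl (Sum.inr (Fin.castSucc j))) Sum.inr :
          Fin n ⊕ Fin p.1.1 → ((Empty ⊕ Fin (n + 1)) ⊕ Fin p.1.1)))
    (v := (Sum.elim (Sum.elim Empty.elim w) u : ((Empty ⊕ Fin (n + 1)) ⊕ Fin p.1.1) → K))
  have h3 : ((Sum.elim (Sum.elim Empty.elim w) u : ((Empty ⊕ Fin (n + 1)) ⊕ Fin p.1.1) → K) ∘
      Sum.elim (fun j : Fin n => Sum.inl (Sum.inr (Fin.castSucc j))) Sum.inr) =
      (Sum.elim (fun j : Fin n => w (Fin.castSucc j)) u : Fin n ⊕ Fin p.1.1 → K) := by
    ext z
    rcases z with z | z <;> rfl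
  rw [h3] at h2
  exact (h _).trans (not_congr h2)

lemma realize_gForm_inr (a : Fin n → M) (t : L.Term (Fin n)) (K : Type u) [L.Structure K]
    (w : Fin (n + 1) → K) (u : Fin 0 → K) :
    (gForm a (Sum.inr t)).Realize (Sum.elim (Sum.elim Empty.elim w) u) ↔
      w (Fin.last n) = t.realize (fun j : Fin n => w (Fin.castSucc j)) := by
  have h : ∀ v : ((Empty ⊕ Fin (n + 1)) ⊕ Fin 0) → K,
      (gForm a (Sum.inr t)).Realize v ↔ (Term.var (Sum.inl (Sum.inr (Fin.last n))) :
        L.Term ((Empty ⊕ Fin (n + 1)) ⊕ Fin 0)).realize v =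
        (t.relabel (fun j => Sum.inl (Sum.inr (Fin.castSucc j)))).realize v :=
    fun v => Formula.realize_equal
  have h2 := Term.realize_relabel (t := t)
    (g := (fun j : Fin n => Sum.inl (Sum.inr (Fin.castSucc j)) :
      Fin n → ((Empty ⊕ Fin (n + 1)) ⊕ Fin 0)))
    (v := (Sum.elim (Sum.elim Empty.elim w) u : ((Empty ⊕ Fin (n + 1)) ⊕ Fin 0) → K))
  have h4 := h (Sum.elim (Sum.elim Empty.elim w) u)
  rw [h2] at h4
  exact h4

/-- The general criterion. -/
theorem exists_dSigma_two [Countable L.Symbols] (a : Fin n → M) (ha : Generates L a)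
    (hself : ∀ b : Fin n → M, Uni L a b → Generates L b) :
    ∃ φ : Inf L Empty, IsDSigma 2 φ ∧ IsScottSentence M φ := by
  classical
  have h1 := UType.nonempty (L := L) a
  obtain ⟨e, he⟩ := exists_surjective_nat (UType L a)
  have h2 : Nonempty (UType L a ⊕ L.Term (Fin n)) := ⟨Sum.inl (Classical.arbitrary _)⟩
  obtain ⟨g, hg⟩ := exists_surjective_nat (UType L a ⊕ L.Term (Fin n))
  -- the `Σ_2` part
  let σ2 : Inf L Empty := Inf.disj fun _ => Inf.ex n
    (Inf.conj fun i => Inf.all (e i).1.1 (Inf.fin (uForm a (e i))))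
  have hσ2 : IsClass true 2 σ2 := by
    refine IsClass.sigma 2 (fun _ => n) (fun _ => 1) _ (fun _ => Nat.one_lt_two) (fun _ => ?_)
    refine IsClass.pi 1 (fun i => (e i).1.1) (fun _ => 0) _ (fun _ => Nat.one_pos) (fun i => ?_)
    exact IsClass.qf _ _ (uForm_isQF a _)
  have hσ2' : ∀ (K : Type u) [L.Structure K],
      σ2.Realize K (Empty.elim : Empty → K) ↔ ∃ b : Fin n → K, Uni L a b := by
    intro K _
    simp only [σ2, Inf.Realize, realize_uForm, exists_const]
    refine exists_congr fun b => ?_
    constructor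
    · intro h k ψ hψ hau w
      obtain ⟨i, hi⟩ := he ⟨⟨k, ψ⟩, hψ, hau⟩
      have h4 : ∀ w : Fin (e i).1.1 → K, (e i).1.2.Realize (Sum.elim b w) := h i
      rw [hi] at h4
      exact h4 w
    · intro h i w
      exact h (e i).1.1 (e i).1.2 (e i).2.1 (e i).2.2 w
  -- the `Π_2` part
  let π2 : Inf L Empty := Inf.conj fun _ => Inf.all (n + 1)
    (Inf.disj fun i => Inf.ex (kk a (g i)) (Inf.fin (gForm a (g i))))
  have hπ2 : IsClass false 2 π2 := by
    refine IsClass.pi 2 (fun _ => n + 1) (fun _ => 1) _ (fun _ => Nat.one_lt_two) (fun _ => ?_)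
    refine IsClass.sigma 1 (fun i => kk a (g i)) (fun _ => 0) _ (fun _ => Nat.one_pos)
      (fun i => ?_)
    exact IsClass.qf _ _ (gForm_isQF a _)
  have hπ2' : ∀ (K : Type u) [L.Structure K],
      π2.Realize K (Empty.elim : Empty → K) ↔ ∀ b : Fin n → K, Uni L a b → Generates L b := by
    intro K _
    simp only [π2, Inf.Realize, forall_const]
    constructor
    · intro h b hb y
      obtain ⟨i, hi⟩ := h (Fin.snoc b y)
      generalize g i = z at hi
      obtain ⟨w, hw⟩ := hi
      rcases z with p | t
      · exfalso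
        have hw' := (realize_gForm_inl a p K _ w).1 hw
        simp only [Fin.snoc_castSucc] at hw'
        exact hw' (hb p.1.1 p.1.2 p.2.1 p.2.2 w)
      · have hw' := (realize_gForm_inr a t K _ w).1 hw
        simp only [Fin.snoc_castSucc, Fin.snoc_last] at hw'
        exact ⟨t, hw'.symm⟩
    · intro h w
      by_cases hb : Uni L a (fun j => w (Fin.castSucc j))
      · obtain ⟨t, ht⟩ := h _ hb (w (Fin.last n))
        obtain ⟨i, hi⟩ := hg (Sum.inr t)
        refine ⟨i, ?_⟩
        rw [hi]
        exact ⟨Fin.elim0, (realize_gForm_inr a t K _ _).2 ht.symm⟩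
      · unfold Uni at hb
        push Not at hb
        obtain ⟨k, ψ, hψ, hau, u, hu⟩ := hb
        obtain ⟨i, hi⟩ := hg (Sum.inl ⟨⟨k, ψ⟩, hψ, hau⟩)
        refine ⟨i, ?_⟩
        rw [hi]
        exact ⟨u, (realize_gForm_inl a _ K _ _).2 hu⟩
  refine ⟨Inf.and σ2 π2, ⟨σ2, π2, hσ2, hπ2, rfl⟩, ?_⟩
  intro K _ _
  have : (Inf.and σ2 π2).Realize K (Empty.elim : Empty → K) ↔
      (∃ b : Fin n → K, Uni L a b) ∧ ∀ b : Fin n → K, Uni L a b → Generates L b := by
    rw [← hσ2' K, ← hπ2' K]
    rfl
  rw [this]
  constructor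
  · rintro ⟨⟨b, hb⟩, h⟩
    exact hb.nonempty_equiv ha (h b hb)
  · rintro ⟨f⟩
    refine ⟨⟨f ∘ a, ?_⟩, ?_⟩
    · intro k ψ hψ hau w
      have h3 := hau (f.symm ∘ w)
      rw [← StrongHomClass.realize_formula f] at h3
      convert h3 using 1
      ext z
      rcases z with z | z <;> simp
    · intro b hb y
      obtain ⟨t, ht⟩ := hself (f.symm ∘ b) (by
        intro k ψ hψ hau w
        have h3 := hb k ψ hψ hau (f ∘ w)
        rw [← StrongHomClass.realize_formula f.symm] at h3
        convert h3 using 1
        ext z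
        rcases z with z | z <;> simp) (f.symm y)
      refine ⟨t, ?_⟩
      have h5 := HomClass.realize_term (F := M ≃[L] K) f (t := t) (v := f.symm ∘ b)
      rw [ht] at h5
      have h6 : (f ∘ (f.symm ∘ b) : Fin n → K) = b := by
        ext j
        simp
      rw [h6] at h5
      simpa using h5

end general

/-! ### Commutative rings -/

/-- A surjective endomorphism of a noetherian ring is injective. -/
lemma injective_of_surjective {A : Type u} [CommRing A] [IsNoetherianRing A] (τ : A →+* A)
    (hτ : Function.Surjective τ) : Function.Injective τ := by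
  have hmono : Monotone (fun m : ℕ => RingHom.ker (τ ^ m)) := by
    refine monotone_nat_of_le_succ fun m x hx => ?_
    rw [RingHom.mem_ker] at hx ⊢
    rw [pow_succ', RingHom.mul_def, RingHom.comp_apply, hx, map_zero]
  obtain ⟨m, hm⟩ := monotone_stabilizes_iff_noetherian.2 (inferInstance : IsNoetherian A A)
    ⟨fun m : ℕ => RingHom.ker (τ ^ m), hmono⟩
  have hsurj : ∀ m : ℕ, Function.Surjective (τ ^ m) := by
    intro m
    induction m with
    | zero => intro x; exact ⟨x, rfl⟩
    | succ m ih =>
      intro x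
      obtain ⟨y, hy⟩ := hτ x
      obtain ⟨z, hz⟩ := ih y
      exact ⟨z, by rw [pow_succ', RingHom.mul_def, RingHom.comp_apply, hz, hy]⟩
  rw [injective_iff_map_eq_zero]
  intro x hx
  obtain ⟨y, hy⟩ := hsurj m x
  have h1 : y ∈ RingHom.ker (τ ^ (m + 1)) := by
    rw [RingHom.mem_ker, pow_succ', RingHom.mul_def, RingHom.comp_apply, hy, hx]
  have h2 : RingHom.ker (τ ^ m) = RingHom.ker (τ ^ (m + 1)) := hm (m + 1) (Nat.le_succ m)
  rw [← h2, RingHom.mem_ker] at h1
  rw [← hy, h1]

/-- Finite conjunctions. -/
def lconj {α : Type} : List (L.Formula α) → L.Formula α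
  | [] => ⊤
  | φ :: l => φ ⊓ lconj l

lemma lconj_isQF {α : Type} (l : List (L.Formula α)) (h : ∀ φ ∈ l, BoundedFormula.IsQF φ) :
    BoundedFormula.IsQF (lconj l) := by
  induction l with
  | nil => exact BoundedFormula.IsQF.top
  | cons φ l ih =>
    exact (h φ (by simp)).inf (ih fun ψ hψ => h ψ (by simp [hψ]))

lemma realize_lconj {α : Type} (l : List (L.Formula α)) {M : Type u} [L.Structure M]
    (v : α → M) : (lconj l).Realize v ↔ ∀ φ ∈ l, φ.Realize v := by
  induction l with
  | nil => simp [lconj]
  | cons φ l ih => simp [lconj, ih]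

open FirstOrder.Ring in
lemma generates_iff {A : Type u} [CommRing A] [CompatibleRing A] {n : ℕ} (a : Fin n → A) :
    Generates Language.ring a ↔ Function.Surjective (FreeCommRing.lift a) := by
  constructor
  · intro h y
    obtain ⟨t, rfl⟩ := h y
    clear h
    induction t with
    | var j => exact ⟨FreeCommRing.of j, by simp⟩
    | func f x ih =>
      choose p hp using ih
      cases f with
      | add => exact ⟨p 0 + p 1, by simp [hp, Term.realize, CompatibleRing.funMap_add]⟩
      | mul => exact ⟨p 0 * p 1, by simp [hp, Term.realize, CompatibleRing.funMap_mul]⟩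
      | neg => exact ⟨- p 0, by simp [hp, Term.realize, CompatibleRing.funMap_neg]⟩
      | zero => exact ⟨0, by simp [Term.realize, CompatibleRing.funMap_zero]⟩
      | one => exact ⟨1, by simp [Term.realize, CompatibleRing.funMap_one]⟩
  · intro h y
    obtain ⟨p, hp⟩ := h y
    exact ⟨termOfFreeCommRing p, by rw [realize_termOfFreeCommRing, hp]⟩

instance {n : ℕ} : IsNoetherianRing (FreeCommRing (Fin n)) :=
  isNoetherianRing_of_ringEquiv _ (freeCommRingEquivMvPolynomialInt (Fin n)).symm

instance {n : ℕ} : IsNoetherianRing (FreeCommRing (Fin n ⊕ Fin n)) :=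
  isNoetherianRing_of_ringEquiv _ (freeCommRingEquivMvPolynomialInt (Fin n ⊕ Fin n)).symm

open FirstOrder.Ring in
/-- The key algebraic fact. -/
lemma ring_self {A : Type u} [CommRing A] [CompatibleRing A] {n : ℕ} (a b : Fin n → A)
    (ha : Generates Language.ring a) (hab : Uni Language.ring a b) :
    Generates Language.ring b := by
  rw [generates_iff] at ha ⊢
  have hnoeth : IsNoetherianRing A := isNoetherianRing_of_surjective _ _ _ ha
  -- the surjection from the polynomial ring in two blocks of variables
  set θ : FreeCommRing (Fin n ⊕ Fin n) →+* A := FreeCommRing.lift (Sum.elim b a) with hθ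
  have hθs : Function.Surjective θ := by
    intro y
    obtain ⟨p, hp⟩ := ha y
    refine ⟨FreeCommRing.map Sum.inr p, ?_⟩
    rw [← hp]
    have : θ.comp (FreeCommRing.map Sum.inr) = FreeCommRing.lift a := by
      apply FreeCommRing.hom_ext
      intro x
      simp [hθ]
    rw [← this]
    rfl
  obtain ⟨S, hS⟩ : (RingHom.ker θ).FG := IsNoetherian.noetherian _
  -- the system of equations
  let sys : Language.ring.Formula (Fin n ⊕ Fin n) :=
    lconj (S.toList.map fun q => Term.equal (termOfFreeCommRing q) (termOfFreeCommRing 0))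
  have hsysqf : BoundedFormula.IsQF sys := by
    apply lconj_isQF
    intro φ hφ
    simp only [List.mem_map] at hφ
    obtain ⟨q, -, rfl⟩ := hφ
    exact isQF_equal _ _
  have hsys : ∀ v : Fin n ⊕ Fin n → A, sys.Realize v ↔ ∀ q ∈ S, FreeCommRing.lift v q = 0 := by
    intro v
    rw [realize_lconj]
    simp
  have hsol : ∃ c : Fin n → A, ∀ q ∈ S, FreeCommRing.lift (Sum.elim a c) q = 0 := by
    by_contra hno
    push Not at hno
    have h1 := hab n sys.not hsysqf.not (fun w => by
      rw [Formula.realize_not, hsys]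
      intro h2
      obtain ⟨q, hq, hq'⟩ := hno w
      exact hq' (h2 q hq)) a
    rw [Formula.realize_not, hsys] at h1
    refine h1 fun q hq => ?_
    have : q ∈ RingHom.ker θ := by
      rw [← hS]
      exact Ideal.subset_span hq
    exact this
  obtain ⟨c, hc⟩ := hsol
  have hker : RingHom.ker θ ≤ RingHom.ker (FreeCommRing.lift (Sum.elim a c)) := by
    rw [← hS, Ideal.span_le]
    intro q hq
    exact hc q hq
  let τ : A →+* A := RingHom.liftOfSurjective θ hθs ⟨FreeCommRing.lift (Sum.elim a c), hker⟩
  have hτ : ∀ q, τ (θ q) = FreeCommRing.lift (Sum.elim a c) q := fun q =>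
    RingHom.liftOfRightInverse_comp_apply _ _ _ _ q
  have hτb : ∀ p : FreeCommRing (Fin n), τ (FreeCommRing.lift b p) = FreeCommRing.lift a p := by
    intro p
    have h1 : τ.comp (FreeCommRing.lift b) = FreeCommRing.lift a := by
      apply FreeCommRing.hom_ext
      intro x
      have := hτ (FreeCommRing.of (Sum.inl x))
      simpa [hθ] using this
    rw [← h1]
    rfl
  have hτs : Function.Surjective τ := by
    intro y
    obtain ⟨p, hp⟩ := ha y
    exact ⟨FreeCommRing.lift b p, by rw [hτb, hp]⟩
  have hτi := injective_of_surjective τ hτs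
  intro y
  obtain ⟨p, hp⟩ := ha (τ y)
  exact ⟨p, hτi (by rw [hτb, hp])⟩

instance : Countable Language.ring.Symbols := Finite.to_countable

open FirstOrder.Ring in
/-- Every finitely generated commutative ring (in the language of rings) has a d-`Σ_2` Scott
sentence. In particular this holds for every finitely generated integral domain. -/
theorem result (A : Type u) [CommRing A] [CompatibleRing A] (hA : FinGen Language.ring A) :
    ∃ φ : Inf Language.ring Empty, IsDSigma 2 φ ∧ IsScottSentence A φ := by
  obtain ⟨n, a, ha⟩ := hA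
  exact exists_dSigma_two a ha fun b hb => ring_self a b ha hb

end Pool.Agent.Results.MP_93e0ce_lc.DSigmaTwo
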